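import Mathlib
set_option autoImplicit false
open Finset
open scoped Pointwise Classical
namespace Pool.Agent.Results.MP_abd417_co.Superlinear

/-- The standard inner product of `ℝ³`. -/
def ip (u v : Fin 3 → ℝ) : ℝ := ∑ i, u i * v i

/-- The unordered triples of pairwise orthogonal vectors of `V`. -/
noncomputable def bases (V : Finset (Fin 3 → ℝ)) : Finset (Finset (Fin 3 → ℝ)) :=
  (V.powersetCard 3).filter (fun B => ∀ u ∈ B, ∀ v ∈ B, u ≠ v → ip u v = 0)

lemma box {G ι : Type} [CommGroup G] [Infinite G] [Fintype ι] (α β : ι → G) (N : ℕ) :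
    ∃ A : Finset G, A.card ≤ N ∧ N < A.card + 4 ^ Fintype.card ι ∧
      ∀ τ, ∃ Q ⊆ A, A.card ≤ 4 * Q.card ∧ ∀ z ∈ Q, z * α τ ∈ A ∧ z * β τ ∈ A := by
  set S : ι → Finset G := fun τ => {1, α τ, β τ, α τ * β τ} with hS
  have S4 : ∀ τ, (S τ).card ≤ 4 := fun τ => Finset.card_le_four
  have hB : ∀ s : Finset ι, (∏ τ ∈ s, S τ).card ≤ 4 ^ s.card ∧ (∏ τ ∈ s, S τ).Nonempty := by
    intro s
    induction s using Finset.induction_on with
    | empty => simp
    | insert a s ha ih =>
      rw [Finset.prod_insert ha, Finset.card_insert_of_notMem ha, pow_succ']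
      exact ⟨Finset.card_mul_le.trans (Nat.mul_le_mul (S4 a) ih.1),
        Finset.Nonempty.mul (by simp [hS]) ih.2⟩
  set B := ∏ τ, S τ with hBd
  obtain ⟨b1, b2⟩ := hB univ
  rw [← hBd] at b1 b2
  rw [Finset.card_univ] at b1
  set w := Infinite.natEmbedding G
  set f : ℕ → ℕ := fun j => ((range j).image w * B).card with hf
  have f1 : ∀ j, j ≤ f j := by
    intro j
    have := Finset.card_le_card_mul_right (s := (range j).image w) b2
    rwa [Finset.card_image_of_injective _ w.injective, card_range] at this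
  have f2 : ∀ j, f (j + 1) ≤ f j + 4 ^ Fintype.card ι := by
    intro j
    simp only [hf]
    rw [Finset.range_add_one, Finset.image_insert, Finset.insert_eq, Finset.union_mul]
    refine (Finset.card_union_le _ _).trans ?_
    rw [add_comm, Finset.card_singleton_mul]
    omega
  have hex : ∃ j, N < f j + 4 ^ Fintype.card ι := ⟨N + 1, by have := f1 (N + 1); omega⟩
  obtain ⟨j, j1, j2⟩ : ∃ j, N < f j + 4 ^ Fintype.card ι ∧ f j ≤ N := by
    refine ⟨Nat.find hex, Nat.find_spec hex, ?_⟩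
    rcases Nat.eq_zero_or_pos (Nat.find hex) with h | h
    · rw [h]; simp [hf]
    · obtain ⟨i, hi⟩ := Nat.exists_eq_succ_of_ne_zero h.ne'
      have := Nat.find_min hex (m := i) (by omega)
      have := f2 i
      rw [hi]
      simp only [Nat.succ_eq_add_one]
      omega
  refine ⟨(range j).image w * B, j2, j1, fun τ => ?_⟩
  have e : (range j).image w * B = ((range j).image w * ∏ σ ∈ univ.erase τ, S σ) * S τ := by
    rw [hBd, ← Finset.prod_erase_mul univ S (mem_univ τ), mul_assoc]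
  refine ⟨(range j).image w * ∏ σ ∈ univ.erase τ, S σ, ?_, ?_, ?_⟩
  · rw [e]
    exact Finset.subset_mul_left _ (by simp [hS])
  · rw [e, mul_comm 4]
    exact Finset.card_mul_le.trans (Nat.mul_le_mul_left _ (S4 τ))
  · intro z hz
    rw [e]
    exact ⟨Finset.mul_mem_mul hz (by simp [hS]), Finset.mul_mem_mul hz (by simp [hS])⟩

lemma inf_circle : Infinite Circle := by
  refine Infinite.of_injective (fun n : ℕ => Circle.exp (1 / ((n : ℝ) + 1))) (fun a b h => ?_)
  have key : ∀ n : ℕ, (1 / ((n : ℝ) + 1)) ∈ Set.Ico (0 : ℝ) 2 := by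
    intro n
    refine ⟨by positivity, ?_⟩
    rw [div_lt_iff₀ (by positivity)]
    have : (0 : ℝ) ≤ n := by positivity
    linarith
  have := Circle.exp_injOn_Ico (a := 0) (b := 2) (by linarith [Real.pi_gt_three]) (key a) (key b) h
  field_simp at this
  exact_mod_cast (by linarith : (a : ℝ) = b)

lemma mk_circle (w : ℂ) (h : ‖w‖ = 1) : ∃ α : Circle, (α : ℂ) = w :=
  ⟨⟨w, mem_sphere_zero_iff_norm.mpr h⟩, rfl⟩

noncomputable def PP (h : ℝ) (z : Circle) : Fin 3 → ℝ :=
  ![√(1 - h ^ 2) * (z : ℂ).re, √(1 - h ^ 2) * (z : ℂ).im, h]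

lemma circ (z : Circle) : (z : ℂ).re ^ 2 + (z : ℂ).im ^ 2 = 1 := by
  have := Circle.normSq_coe z
  rw [Complex.normSq_apply] at this
  linarith

lemma PP_unit (h : ℝ) (hh : h ^ 2 ≤ 1) (z : Circle) : ip (PP h z) (PP h z) = 1 := by
  have h1 := Real.sq_sqrt (show 0 ≤ 1 - h ^ 2 by linarith)
  have h2 := circ z
  simp only [ip, PP, Fin.sum_univ_three, Matrix.cons_val_zero, Matrix.cons_val_one,
    Matrix.cons_val]
  linear_combination (√(1 - h ^ 2)) ^ 2 * h2 + h1

lemma PP_inj (h : ℝ) (hh : h ^ 2 < 1) (z z' : Circle) (e : PP h z = PP h z') : z = z' := by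
  have h1 : √(1 - h ^ 2) ≠ 0 := (Real.sqrt_pos.mpr (by linarith)).ne'
  have e0 := congrFun e 0
  have e1 := congrFun e 1
  simp only [PP, Matrix.cons_val_zero, Matrix.cons_val_one] at e0 e1
  exact Circle.ext (Complex.ext (mul_left_cancel₀ h1 e0) (mul_left_cancel₀ h1 e1))

lemma frame (a b c : ℝ) (ha : a ^ 2 < 1) (hb : b ^ 2 < 1) (hc : c ^ 2 < 1)
    (h : a ^ 2 + b ^ 2 + c ^ 2 = 1) : ∃ α β : Circle, ∀ z : Circle,
      ip (PP a z) (PP b (z * α)) = 0 ∧ ip (PP a z) (PP c (z * β)) = 0 ∧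
        ip (PP b (z * α)) (PP c (z * β)) = 0 := by
  have a1 := Real.sq_sqrt (show 0 ≤ 1 - a ^ 2 by linarith)
  have b1 := Real.sq_sqrt (show 0 ≤ 1 - b ^ 2 by linarith)
  have c1 := Real.sq_sqrt (show 0 ≤ 1 - c ^ 2 by linarith)
  have a2 : √(1 - a ^ 2) ≠ 0 := (Real.sqrt_pos.mpr (by linarith)).ne'
  have b2 : √(1 - b ^ 2) ≠ 0 := (Real.sqrt_pos.mpr (by linarith)).ne'
  have c2 : √(1 - c ^ 2) ≠ 0 := (Real.sqrt_pos.mpr (by linarith)).ne'
  simp only [ip, PP, Fin.sum_univ_three, Matrix.cons_val_zero, Matrix.cons_val_one,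
    Matrix.cons_val, Circle.coe_mul, Complex.mul_re, Complex.mul_im]
  generalize √(1 - a ^ 2) = x at *
  generalize √(1 - b ^ 2) = y at *
  generalize √(1 - c ^ 2) = t at *
  have n1 : ‖(⟨-a * b / (x * y), c / (x * y)⟩ : ℂ)‖ = 1 := by
    rw [Complex.norm_eq_sqrt_sq_add_sq, Real.sqrt_eq_one]
    field_simp
    rw [a1, b1]
    linear_combination h
  have n2 : ‖(⟨-a * c / (x * t), -b / (x * t)⟩ : ℂ)‖ = 1 := by
    rw [Complex.norm_eq_sqrt_sq_add_sq, Real.sqrt_eq_one]
    field_simp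
    rw [a1, c1]
    linear_combination h
  obtain ⟨α, hα⟩ := mk_circle _ n1
  obtain ⟨β, hβ⟩ := mk_circle _ n2
  refine ⟨α, β, fun z => ?_⟩
  have h2 := circ z
  simp only [hα, hβ]
  refine ⟨?_, ?_, ?_⟩
  · field_simp
    linear_combination (-a * b) * h2
  · field_simp
    linear_combination (-a * c) * h2
  · field_simp
    linear_combination (a ^ 2 * b * c - b * c) * h2 + b * c * a1

lemma main (k n : ℕ) (hk : 1 ≤ k) (hn : 20 * 16 ^ (k * k) ≤ n) :
    ∃ V : Finset (Fin 3 → ℝ), V.card = n ∧ (∀ v ∈ V, ip v v = 1) ∧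
      3 * n * k ≤ 160 * (bases V).card := by
  have := inf_circle
  set h : ℕ → ℝ := fun a => √((a : ℝ) / (5 * k + 1)) with hh
  have kR : (1 : ℝ) ≤ k := by exact_mod_cast hk
  have hsq : ∀ a, h a ^ 2 = (a : ℝ) / (5 * k + 1) := fun a => Real.sq_sqrt (by positivity)
  have hlt : ∀ a ≤ 5 * k, h a ^ 2 < 1 := by
    intro a ha
    have : (a : ℝ) ≤ 5 * k := by exact_mod_cast ha
    rw [hsq, div_lt_one (by positivity)]
    linarith
  have hinj : ∀ a b z z', PP (h a) z = PP (h b) z' → a = b := by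
    intro a b z z' e
    have e2 : h a = h b := congrFun e 2
    have e3 := hsq a
    rw [e2, hsq, div_left_inj' (by positivity)] at e3
    exact_mod_cast e3.symm
  have hfr : ∀ τ : Fin k × Fin k, ∃ α β : Circle, ∀ z : Circle,
      ip (PP (h (τ.1 + 1)) z) (PP (h (τ.2 + k + 1)) (z * α)) = 0 ∧
      ip (PP (h (τ.1 + 1)) z) (PP (h (4 * k - 1 - τ.1 - τ.2)) (z * β)) = 0 ∧
      ip (PP (h (τ.2 + k + 1)) (z * α)) (PP (h (4 * k - 1 - τ.1 - τ.2)) (z * β)) = 0 := by
    rintro ⟨i, j⟩
    have hi := i.2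
    have hj := j.2
    refine frame _ _ _ (hlt _ (by simp only; omega)) (hlt _ (by simp only; omega))
      (hlt _ (by simp only; omega)) ?_
    rw [hsq, hsq, hsq, ← add_div, ← add_div, div_eq_one_iff_eq (by positivity)]
    have : (i + 1 + (j + k + 1) + (4 * k - 1 - i - j) : ℕ) = 5 * k + 1 := by omega
    exact_mod_cast this
  choose α β hαβ using hfr
  obtain ⟨A, A1, A2, A3⟩ := box α β (n / (5 * k))
  choose Q Q1 Q2 Q3 using A3
  rw [Fintype.card_prod, Fintype.card_fin] at A2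
  set V0 := ((Icc 1 (5 * k)) ×ˢ A).image (fun x => PP (h x.1) x.2) with hV0
  have v1 : V0.card ≤ n := by
    refine Finset.card_image_le.trans ?_
    rw [Finset.card_product, Nat.card_Icc]
    calc (5 * k + 1 - 1) * A.card ≤ (5 * k) * (n / (5 * k)) := Nat.mul_le_mul (by omega) A1
      _ ≤ n := Nat.mul_div_le _ _
  set W := (range n).image (fun j => PP 0 (Infinite.natEmbedding Circle j)) with hW
  have w1 : W.card = n := by
    rw [hW, Finset.card_image_of_injective, card_range]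
    intro a b e
    exact (Infinite.natEmbedding Circle).injective (PP_inj 0 (by norm_num) _ _ e)
  obtain ⟨V, V1, V2, V3⟩ := Finset.exists_subsuperset_card_eq (Finset.subset_union_left (s₂ := W)) v1
    (w1.ge.trans (Finset.card_le_card Finset.subset_union_right))
  refine ⟨V, V3, ?_, ?_⟩
  · intro v hv
    rcases Finset.mem_union.mp (V2 hv) with h1 | h1
    · obtain ⟨x, hx, rfl⟩ := mem_image.mp h1
      exact PP_unit _ (hlt _ (mem_Icc.mp (mem_product.mp hx).1).2).le _
    · obtain ⟨x, hx, rfl⟩ := mem_image.mp h1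
      exact PP_unit _ (by norm_num) _
  have ipc : ∀ u v, ip u v = ip v u := fun u v => by simp [ip, mul_comm]
  have cnt : (univ.sigma Q).card ≤ (bases V).card := by
    refine Finset.card_le_card_of_injOn (fun x => {PP (h (x.1.1 + 1)) x.2,
      PP (h (x.1.2 + k + 1)) (x.2 * α x.1), PP (h (4 * k - 1 - x.1.1 - x.1.2)) (x.2 * β x.1)}) ?_ ?_
    · rintro ⟨⟨i, j⟩, z⟩ hz
      have hi := i.2
      have hj := j.2
      have hz : z ∈ Q (i, j) := by simpa using hz
      obtain ⟨o1, o2, o3⟩ := hαβ (i, j) z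
      simp only [bases, coe_filter, mem_powersetCard, Set.mem_ofPred_eq]
      refine ⟨⟨?_, ?_⟩, ?_⟩
      · intro v hv
        refine V1 (mem_image.mpr ?_)
        simp only [mem_insert, mem_singleton] at hv
        rcases hv with rfl | rfl | rfl
        · exact ⟨(_, _), mem_product.mpr ⟨mem_Icc.mpr (by simp only; omega), Q1 _ hz⟩, rfl⟩
        · exact ⟨(_, _), mem_product.mpr ⟨mem_Icc.mpr (by simp only; omega), (Q3 _ _ hz).1⟩, rfl⟩
        · exact ⟨(_, _), mem_product.mpr ⟨mem_Icc.mpr (by simp only; omega), (Q3 _ _ hz).2⟩, rfl⟩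
      · refine Finset.card_eq_three.mpr ⟨_, _, _, ?_, ?_, ?_, rfl⟩ <;>
        · intro e
          have := hinj _ _ _ _ e
          omega
      · intro u hu v hv huv
        simp only [mem_insert, mem_singleton] at hu hv
        rcases hu with rfl | rfl | rfl <;> rcases hv with rfl | rfl | rfl <;>
          first | exact absurd rfl huv | assumption | (rw [ipc]; assumption)
    · rintro ⟨⟨i, j⟩, z⟩ - ⟨⟨i', j'⟩, z'⟩ - e
      have hi := i.2
      have hj := j.2
      have hi' := i'.2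
      have hj' := j'.2
      simp only at e
      have m1 : PP (h (i + 1)) z ∈ _ := e ▸ Finset.mem_insert_self _ _
      have m2 : PP (h (j + k + 1)) (z * α (i, j)) ∈ _ :=
        e ▸ Finset.mem_insert_of_mem (Finset.mem_insert_self _ _)
      simp only [mem_insert, mem_singleton] at m1 m2
      have e1 : PP (h (i + 1)) z = PP (h (i' + 1)) z' := by
        rcases m1 with m | m | m
        · exact m
        · have := hinj _ _ _ _ m; omega
        · have := hinj _ _ _ _ m; omega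
      have e2 : i = i' := Fin.ext (by have := hinj _ _ _ _ e1; omega)
      have e3 : j = j' := by
        refine Fin.ext ?_
        rcases m2 with m | m | m <;> have := hinj _ _ _ _ m <;> omega
      subst e2 e3
      rw [PP_inj _ (hlt _ (by omega)) _ _ e1]
  rw [Finset.card_sigma] at cnt
  have c2 : k * k * A.card ≤ 4 * ∑ τ, (Q τ).card := by
    rw [Finset.mul_sum]
    have := Finset.card_nsmul_le_sum univ (fun τ => 4 * (Q τ).card) A.card (fun τ _ => Q2 τ)
    simpa using this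
  have s1 : k ≤ 4 ^ (k * k) :=
    (Nat.lt_pow_self (by norm_num)).le.trans (Nat.pow_le_pow_right (by norm_num) (Nat.le_mul_self k))
  have s2 : 4 * 4 ^ (k * k) ≤ n / (5 * k) := by
    rw [Nat.le_div_iff_mul_le (by omega)]
    refine le_trans ?_ hn
    rw [show (16 : ℕ) = 4 * 4 by norm_num, mul_pow]
    nlinarith
  have s3 : n < 5 * k * (n / (5 * k) + 1) := Nat.lt_mul_div_succ _ (by omega)
  have s4 : 1 ≤ 4 ^ (k * k) := Nat.one_le_pow _ _ (by norm_num)
  have s5 : 3 * (n / (5 * k)) ≤ 4 * A.card := by omega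
  have s6 : n ≤ 10 * k * (n / (5 * k)) := by nlinarith
  calc 3 * n * k ≤ 3 * (10 * k * (n / (5 * k))) * k := by gcongr
    _ = 10 * (k * k) * (3 * (n / (5 * k))) := by ring
    _ ≤ 10 * (k * k) * (4 * A.card) := by gcongr
    _ = 40 * (k * k * A.card) := by ring
    _ ≤ 40 * (4 * ∑ τ, (Q τ).card) := by gcongr
    _ ≤ _ := by omega

theorem result (n : ℕ) (hn : 320 ≤ n) :
    ∃ V : Finset (Fin 3 → ℝ), V.card = n ∧ (∀ v ∈ V, ip v v = 1) ∧
      (n : ℝ) * √(Real.log n) / 250 ≤ (bases V).card := by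
  have hex : ∃ k, n < 20 * 16 ^ ((k + 1) * (k + 1)) := ⟨n, by
    have h1 : n + 1 < 16 ^ (n + 1) := Nat.lt_pow_self (by norm_num)
    have h2 : 16 ^ (n + 1) ≤ 16 ^ ((n + 1) * (n + 1)) :=
      Nat.pow_le_pow_right (by norm_num) (Nat.le_mul_self _)
    omega⟩
  obtain ⟨k, k1, k2, k3⟩ : ∃ k, 1 ≤ k ∧ n < 20 * 16 ^ ((k + 1) * (k + 1)) ∧
      20 * 16 ^ (k * k) ≤ n := by
    have h0 : Nat.find hex ≠ 0 := by
      intro e
      have := Nat.find_spec hex
      rw [e] at this
      omega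
    obtain ⟨i, hi⟩ := Nat.exists_eq_succ_of_ne_zero h0
    refine ⟨Nat.find hex, by omega, Nat.find_spec hex, ?_⟩
    have := Nat.find_min hex (m := i) (by omega)
    rw [hi]
    exact not_lt.mp this
  obtain ⟨V, V1, V2, V3⟩ := main k n k1 k3
  refine ⟨V, V1, V2, ?_⟩
  have kR : (1 : ℝ) ≤ k := by exact_mod_cast k1
  have nR : (320 : ℝ) ≤ n := by exact_mod_cast hn
  have l1 : Real.log n ≤ (4 * k) ^ 2 := by
    have h1 : (n : ℝ) ≤ 2 ^ (5 + 4 * ((k + 1) * (k + 1))) := by
      have : n ≤ 2 ^ (5 + 4 * ((k + 1) * (k + 1))) := by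
        rw [pow_add, pow_mul]
        norm_num
        omega
      exact_mod_cast this
    have h2 := Real.log_le_log (by linarith) h1
    rw [Real.log_pow] at h2
    push_cast at h2
    have h3 := Real.log_two_lt_d9
    have h4 : (5 + 4 * ((k + 1) * (k + 1)) : ℝ) ≤ 21 * k ^ 2 := by nlinarith
    have h5 : (5 + 4 * ((k + 1) * (k + 1)) : ℝ) * Real.log 2 ≤ 21 * k ^ 2 * 0.7 := by
      gcongr
      linarith
    nlinarith
  have l2 : √(Real.log n) ≤ 4 * k := Real.sqrt_le_iff.mpr ⟨by positivity, l1⟩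
  have V4 : (3 * n * k : ℝ) ≤ 160 * (bases V).card := by exact_mod_cast V3
  have l3 : (n : ℝ) * √(Real.log n) ≤ n * (4 * k) := by gcongr
  have l4 : (0 : ℝ) ≤ n * k := by positivity
  rw [div_le_iff₀ (by norm_num)]
  nlinarith

end Pool.Agent.Results.MP_abd417_co.Superlinear
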